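import Pool.Agent.W5h84.MT.Sym
import Mathlib.NumberTheory.LSeries.PrimesInAP
import Mathlib.NumberTheory.LegendreSymbol.Basic

/-!
# The congruence subgroup theorem for `SL_n(ℤ)`, `n ≥ 3`

A subgroup of `SL_n(ℤ)`, `n ≥ 3`, which is normalised by the elementary matrices and contains the
elementary matrices with entries divisible by `m`, where `4 ∣ m`, contains the principal congruence
subgroup of level `m` (Mennicke; Bass, Lazard and Serre).
-/

set_option autoImplicit false
set_option linter.unusedSimpArgs false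

namespace Pool.Agent.W5h84.MT

open Matrix

variable {H : Subgroup (SLn 3)} [H.Normal] {m : ℕ}

theorem cop_m {a : ℤ} (ha : (m : ℤ) ∣ a - 1) : IsCoprime a m := by
  obtain ⟨k, hk⟩ := ha
  exact ⟨1, -k, by linear_combination hk⟩

theorem cop_my {a y : ℤ} (ha : (m : ℤ) ∣ a - 1) (hy : IsCoprime a y) : IsCoprime a (m * y) :=
  (cop_m ha).mul_right hy

/-- the symbol as a function of the second argument -/
noncomputable def F (H : Subgroup (SLn 3)) [H.Normal] (m : ℕ) (a y : ℤ) : SLn 3 ⧸ H :=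
  sym H m a (m * y)

theorem F_add (hH : Good m H) {a y : ℤ} (ha : (m : ℤ) ∣ a - 1) (hy : IsCoprime a y) (t : ℤ) :
    F H m a (y + t * a) = F H m a y := by
  have := sym_add_b hH (cop_my ha hy) ha (t := m * t) ⟨t, rfl⟩
  rw [F, F, ← this]
  congr 1
  ring

theorem F_one (hH : Good m H) {a : ℤ} (ha : (m : ℤ) ∣ a - 1) : F H m a 1 = 1 := by
  obtain ⟨k, hk⟩ := ha
  have h1 : a = 1 + k * m := by linear_combination hk
  rw [F, mul_one, h1, sym_add_a hH isCoprime_one_left (by simp) dvd_rfl k, sym_one hH dvd_rfl]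

theorem F_neg_one (hH : Good m H) {a : ℤ} (ha : (m : ℤ) ∣ a - 1) : F H m a (-1) = 1 := by
  obtain ⟨k, hk⟩ := ha
  have h1 : a = 1 + (-k) * (-m) := by linear_combination hk
  have h2 : (m : ℤ) * -1 = -m := by ring
  rw [F, h2, h1, sym_add_a hH isCoprime_one_left (by simp) (dvd_neg.2 dvd_rfl) (-k),
    sym_one hH (dvd_neg.2 dvd_rfl)]

theorem F_mul (hH : Good m H) {a y y' : ℤ} (ha : (m : ℤ) ∣ a - 1) (hy : IsCoprime a y)
    (hy' : IsCoprime a y') : F H m a (y * y') = F H m a y * F H m a y' := by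
  have h1 := sym_mul hH (cop_my ha hy) (cop_my ha hy') ha ⟨_, rfl⟩ ⟨_, rfl⟩
  have h2 := sym_mul hH (cop_my ha isCoprime_one_right) (cop_my ha (hy.mul_right hy')) ha
    ⟨_, rfl⟩ ⟨_, rfl⟩
  have h3 : sym H m a (m * 1) = 1 := F_one hH ha
  rw [h3, one_mul] at h2
  have e : (m : ℤ) * y * (m * y') = m * 1 * (m * (y * y')) := by ring
  rw [e, h2] at h1
  exact h1

theorem F_pow (hH : Good m H) {a y : ℤ} (ha : (m : ℤ) ∣ a - 1) (hy : IsCoprime a y) (n : ℕ) :
    F H m a (y ^ n) = F H m a y ^ n := by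
  induction n with
  | zero => rw [pow_zero, pow_zero, F_one hH ha]
  | succ n ih => rw [pow_succ, pow_succ, F_mul hH ha hy.pow_right hy, ih]

theorem F_fermat (hH : Good m H) {p : ℕ} (hp : p.Prime) {a y : ℤ} (hap : a = p ∨ a = -p)
    (ha : (m : ℤ) ∣ a - 1) (hy : IsCoprime a y) : F H m a y ^ (p - 1) = 1 := by
  have hyp : IsCoprime y p := by
    rcases hap with rfl | rfl
    · exact hy.symm
    · exact (IsCoprime.neg_left_iff _ _).1 hy |>.symm
  have h1 := Int.ModEq.pow_card_sub_one_eq_one hp hyp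
  obtain ⟨t, ht⟩ := h1.symm.dvd
  obtain ⟨t', ht'⟩ : ∃ t', y ^ (p - 1) = 1 + t' * a := by
    rcases hap with rfl | rfl
    · exact ⟨t, by linear_combination ht⟩
    · exact ⟨-t, by linear_combination ht⟩
  rw [← F_pow hH ha hy, ht', F_add hH ha isCoprime_one_right, F_one hH ha]

theorem F_half (hH : Good m H) {p : ℕ} (hp : p.Prime) {a y : ℤ} (hap : a = -p)
    (ha : (m : ℤ) ∣ a - 1) (hy : IsCoprime a y) : F H m a y ^ (p / 2) = 1 := by
  have : Fact p.Prime := ⟨hp⟩
  have hy0 : (y : ZMod p) ≠ 0 := by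
    intro h
    rw [ZMod.intCast_zmod_eq_zero_iff_dvd] at h
    have h1 : (p : ℤ) ∣ a := by rw [hap]; exact dvd_neg.2 dvd_rfl
    have h2 := hy.isUnit_of_dvd' h1 h
    rw [Int.isUnit_iff] at h2
    have := hp.two_le
    omega
  rw [← F_pow hH ha hy]
  rcases ZMod.pow_div_two_eq_neg_one_or_one p hy0 with h | h
  · have h1 : ((y ^ (p / 2) - 1 : ℤ) : ZMod p) = 0 := by
      push_cast
      rw [h, sub_self]
    rw [ZMod.intCast_zmod_eq_zero_iff_dvd] at h1
    obtain ⟨t, ht⟩ := h1
    have e : y ^ (p / 2) = 1 + (-t) * a := by rw [hap]; linear_combination ht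
    rw [e, F_add hH ha isCoprime_one_right, F_one hH ha]
  · have h1 : ((y ^ (p / 2) + 1 : ℤ) : ZMod p) = 0 := by
      push_cast
      rw [h, neg_add_cancel]
    rw [ZMod.intCast_zmod_eq_zero_iff_dvd] at h1
    obtain ⟨t, ht⟩ := h1
    have e : y ^ (p / 2) = -1 + (-t) * a := by rw [hap]; linear_combination ht
    rw [e, F_add hH ha isCoprime_one_right.neg_right, F_neg_one hH ha]

/-- All symbols are trivial. -/
theorem sym_trivial (hH : Good m H) (h4 : 4 ∣ m) {a b : ℤ} (hab : IsCoprime a b)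
    (ha : (m : ℤ) ∣ a - 1) (hb : (m : ℤ) ∣ b) (hb0 : b ≠ 0) : sym H m a b = 1 := by
  obtain ⟨y, rfl⟩ := hb
  set b : ℤ := m * y with hbdef
  have hay : IsCoprime a y := hab.of_mul_right_right
  have hcopr : ∀ t : ℤ, IsCoprime (a + t * b) y := by
    intro t
    have : IsCoprime (a + t * b) b := by
      have := hab.add_mul_left_left t
      rwa [mul_comm b t] at this
    exact this.of_mul_right_right
  have hcong : ∀ t : ℤ, (m : ℤ) ∣ (a + t * b) - 1 := by
    intro t
    have : (a + t * b) - 1 = (a - 1) + m * (t * y) := by rw [hbdef]; ring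
    rw [this]
    exact dvd_add ha ⟨_, rfl⟩
  have hsym : ∀ t : ℤ, sym H m a b = F H m (a + t * b) y := by
    intro t
    rw [F, ← sym_add_a hH hab ha ⟨y, rfl⟩ t]
  set x := sym H m a b with hx
  set B := b.natAbs with hB
  have hB0 : B ≠ 0 := Int.natAbs_ne_zero.2 hb0
  -- exponents of `x`
  have hexp1 : ∀ p : ℕ, p.Prime → b ∣ (p : ℤ) - a → x ^ (p - 1) = 1 := by
    rintro p hp ⟨t, ht⟩
    have e : (p : ℤ) = a + t * b := by linear_combination ht
    rw [hsym t]
    exact F_fermat hH hp (Or.inl e.symm) (hcong t) (hcopr t)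
  have hexp2 : ∀ p : ℕ, p.Prime → b ∣ (p : ℤ) + a → x ^ (p - 1) = 1 := by
    rintro p hp ⟨t, ht⟩
    have e : a + (-t) * b = -(p : ℤ) := by linear_combination ht
    rw [hsym (-t)]
    exact F_fermat hH hp (Or.inr e) (hcong _) (hcopr _)
  have hexp3 : ∀ p : ℕ, p.Prime → b ∣ (p : ℤ) + a → x ^ (p / 2) = 1 := by
    rintro p hp ⟨t, ht⟩
    have e : a + (-t) * b = -(p : ℤ) := by linear_combination ht
    rw [hsym (-t)]
    exact F_half hH hp e (hcong _) (hcopr _)
  have hBb : (B : ℤ) ∣ b ∧ b ∣ (B : ℤ) := ⟨Int.natAbs_dvd.2 dvd_rfl, Int.dvd_natAbs.2 dvd_rfl⟩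
  have hcopB : IsCoprime a (B : ℤ) := hab.of_isCoprime_of_dvd_right hBb.1
  obtain ⟨p', -, hp', hpa'⟩ := Nat.forall_exists_prime_gt_and_zmodEq 0 hB0 hcopB.neg_left
  have hb' : b ∣ (p' : ℤ) + a := by
    have := hBb.2.trans hpa'.symm.dvd
    rwa [sub_neg_eq_add] at this
  obtain ⟨p, -, hp, hpa⟩ := Nat.forall_exists_prime_gt_and_zmodEq 0 hB0 hcopB
  have hbp : b ∣ (p : ℤ) - a := hBb.2.trans hpa.symm.dvd
  set D := orderOf x with hD
  have hD1 : D ∣ p' / 2 := orderOf_dvd_of_pow_eq_one (hexp3 p' hp' hb')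
  have hD2 : D ∣ p' - 1 := orderOf_dvd_of_pow_eq_one (hexp2 p' hp' hb')
  have hD3 : D ∣ p - 1 := orderOf_dvd_of_pow_eq_one (hexp1 p hp hbp)
  have hp'4 : p' % 4 = 3 := by
    have h1 : (4 : ℤ) ∣ (m : ℤ) := by exact_mod_cast h4
    have h2 : (4 : ℤ) ∣ (p' : ℤ) + a := (h1.trans ⟨y, rfl⟩).trans hb'
    have h3 : (4 : ℤ) ∣ a - 1 := h1.trans ha
    omega
  have hno : ∀ l : ℕ, l.Prime → l ≠ 2 → ¬ l ∣ D := by
    intro l hl hl2 hlD
    have hl3 : ¬ l ∣ 2 := by
      intro h
      rcases (Nat.dvd_prime Nat.prime_two).1 h with h1 | h1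
      · exact hl.one_lt.ne' h1
      · exact hl2 h1
    by_cases hlb : (l : ℤ) ∣ b
    · have h1 : l ∣ p' - 1 := hlD.trans hD2
      have h2 : l ∣ p - 1 := hlD.trans hD3
      have h3 : (l : ℤ) ∣ (p' : ℤ) - 1 := by
        have := Int.natCast_dvd_natCast.2 h1
        rwa [Nat.cast_sub hp'.one_le, Nat.cast_one] at this
      have h4 : (l : ℤ) ∣ (p : ℤ) - 1 := by
        have := Int.natCast_dvd_natCast.2 h2
        rwa [Nat.cast_sub hp.one_le, Nat.cast_one] at this
      have h5 : (l : ℤ) ∣ 2 := by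
        have e : (2 : ℤ) = ((p' : ℤ) + a) + ((p : ℤ) - a) - ((p' : ℤ) - 1) - ((p : ℤ) - 1) := by
          ring
        rw [e]
        exact dvd_sub (dvd_sub (dvd_add (hlb.trans hb') (hlb.trans hbp)) h3) h4
      exact hl3 (by exact_mod_cast h5)
    · have hcop : IsCoprime (B : ℤ) (l : ℤ) := by
        rw [Nat.isCoprime_iff_coprime, Nat.coprime_comm, hl.coprime_iff_not_dvd]
        intro h
        exact hlb ((Int.natCast_dvd_natCast.2 h).trans hBb.1)
      obtain ⟨u, v, huv⟩ := hcop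
      -- `r ≡ -a mod B`, `r ≡ -1 mod l`
      set r : ℤ := -a * (v * l) - u * B with hr
      have r1 : r = -a + B * (a * u - u) := by rw [hr]; linear_combination (-a) * huv
      have r2 : r = -1 + l * (v - a * v) := by rw [hr]; linear_combination (-1 : ℤ) * huv
      have rc1 : IsCoprime r (B : ℤ) := by
        rw [r1]
        have := hcopB.neg_left.add_mul_left_left (a * u - u)
        exact this
      have rc2 : IsCoprime r (l : ℤ) := by
        rw [r2]
        have := (isCoprime_one_left (x := (l : ℤ))).neg_left.add_mul_left_left (v - a * v)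
        exact this
      have hBl : B * l ≠ 0 := Nat.mul_ne_zero hB0 hl.ne_zero
      obtain ⟨q, -, hq, hqr⟩ := Nat.forall_exists_prime_gt_and_zmodEq 0 hBl
        (a := r) (by push_cast; exact rc1.mul_right rc2)
      have h0 := hqr.symm.dvd
      push_cast at h0
      have h1 : b ∣ (q : ℤ) + a := by
        have e : (q : ℤ) + a = (q - r) + B * (a * u - u) := by rw [r1]; ring
        rw [e]
        exact dvd_add (hBb.2.trans ((dvd_mul_right _ _).trans h0)) (hBb.2.trans ⟨_, rfl⟩)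
      have h2 : l ∣ q - 1 := hlD.trans (orderOf_dvd_of_pow_eq_one (hexp2 q hq h1))
      have h3 : (l : ℤ) ∣ (q : ℤ) - 1 := by
        have := Int.natCast_dvd_natCast.2 h2
        rwa [Nat.cast_sub hq.one_le, Nat.cast_one] at this
      have h4 : (l : ℤ) ∣ 2 := by
        have e : (2 : ℤ) = (q - r) + l * (v - a * v) - ((q : ℤ) - 1) := by rw [r2]; ring
        rw [e]
        exact dvd_sub (dvd_add ((dvd_mul_left _ _).trans h0) ⟨_, rfl⟩) h3
      exact hl3 (by exact_mod_cast h4)
  have hD4 : D = 1 := by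
    by_contra hne
    obtain ⟨l, hl, hlD⟩ := Nat.exists_prime_and_dvd hne
    by_cases h2 : l = 2
    · subst h2
      have := hlD.trans hD1
      omega
    · exact hno l hl h2 hlD
  exact orderOf_eq_one_iff.1 hD4

theorem three (h4 : 4 ∣ m) (hm : m ≠ 0) (hH : Good m H) (A : SLn 3) (hA : Cong m A) : A ∈ H := by
  refine reduce (k := 0) hH (fun A hA => ?_) A hA
  have hc := cong_iff.1 hA
  set a := A.1 0 0 with ha
  set b := A.1 0 1 with hb
  set c := A.1 1 0 with hc'
  set d := A.1 1 1 with hd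
  have h : a * d - b * c = 1 := by
    have := A.2
    rw [det_fin_two] at this
    exact this
  have e : bd 2 A = b12 a b c d h := by
    apply Subtype.ext
    show Pool.Agent.Helper605.bx 1 0 0 A.1 = !![1, 0, 0; 0, a, b; 0, c, d]
    refine Matrix.ext fun i j => ?_
    fin_cases i <;> fin_cases j <;> rfl
  have h1 : (m : ℤ) ∣ a - 1 := by
    have := hc 0 0
    rwa [Matrix.one_apply_eq] at this
  have h2 : (m : ℤ) ∣ b := by
    have := hc 0 1
    rwa [Matrix.one_apply_ne (by decide), sub_zero] at this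
  have h3 : (m : ℤ) ∣ c := by
    have := hc 1 0
    rwa [Matrix.one_apply_ne (by decide), sub_zero] at this
  have h5 := dvd_d h h1 h3
  rw [e]
  have e12 : cl H (b12 a b c d h) = cl H (b01 a b c d h) := by
    have := congrArg (cl H) (w3_eq a b c d h)
    rw [map_mul, map_mul, central hH a b c d h h1 h2 h3 h5] at this
    exact (mul_right_cancel this).symm
  apply (QuotientGroup.eq_one_iff _).1
  change cl H (b12 a b c d h) = 1
  rw [e12, ← sym_eq hH a b c d h h3]
  have hcop : IsCoprime a b := ⟨d, -c, by linear_combination h⟩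
  by_cases hb0 : b = 0
  · rw [hb0]
    have : a = 1 := by
      rw [hb0, zero_mul, sub_zero] at h
      have hm4 : (4 : ℤ) ∣ a - 1 := (by exact_mod_cast h4 : (4 : ℤ) ∣ (m : ℤ)).trans h1
      rcases Int.eq_one_or_neg_one_of_mul_eq_one h with h6 | h6
      · exact h6
      · rw [h6] at hm4
        omega
    rw [this]
    exact sym_one hH (dvd_zero _)
  · exact sym_trivial hH h4 hcop h1 h2 hb0

theorem comap_good {k : ℕ} {H : Subgroup (SLn (k + 1))} (hH : Good m H) :
    Good m (H.comap (bd k)) := by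
  refine ⟨fun h t g hg => ?_, fun h t => ?_⟩
  · rw [Subgroup.mem_comap, map_mul, map_mul, map_inv, bd_el]
    exact hH.nrm _ t _ hg
  · rw [Subgroup.mem_comap, bd_el]
    exact hH.mem _ t

end Pool.Agent.W5h84.MT

namespace Pool.Agent.W5h84.MT

/-- **The congruence subgroup theorem.** -/
theorem main {m : ℕ} (h4 : 4 ∣ m) (hm : m ≠ 0) : ∀ (k : ℕ) {H : Subgroup (SLn (k + 3))},
    Good m H → ∀ A : SLn (k + 3), Cong m A → A ∈ H := by
  intro k
  induction k with
  | zero =>
    intro H hH A hA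
    have := Good.normal (k := 1) hH
    exact three h4 hm hH A hA
  | succ k ih =>
    intro H hH A hA
    exact reduce hH (fun A' hA' => ih (comap_good hH) A' hA') A hA

end Pool.Agent.W5h84.MT
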