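import Pool.Agent.Helper605.EL

/-!
# Elementary matrices over the integers and congruence subgroups: reduction of the size
-/

set_option autoImplicit false
set_option linter.unusedSimpArgs false

namespace Pool.Agent.W5h84.MT

open Matrix Pool.Agent.Helper605

/-- `SL_n(ℤ)` -/
abbrev SLn (n : ℕ) := SpecialLinearGroup (Fin n) ℤ

/-- the elementary matrix with entry `t` at `(i, j)` -/
abbrev el {n : ℕ} {i j : Fin n} (h : i ≠ j) (t : ℤ) : SLn n := SpecialLinearGroup.transvection h t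

variable {n : ℕ}

theorem el_val {i j : Fin n} (h : i ≠ j) (t : ℤ) : (el h t : SLn n).1 = transvection i j t := rfl

theorem el_add {i j : Fin n} (h : i ≠ j) (s t : ℤ) : el h (s + t) = el h s * el h t :=
  SpecialLinearGroup.transvection_add h s t

theorem el_zero {i j : Fin n} (h : i ≠ j) : el h 0 = 1 :=
  SpecialLinearGroup.transvection_coeff_zero h

theorem el_inv {i j : Fin n} (h : i ≠ j) (t : ℤ) : (el h t)⁻¹ = el h (-t) :=
  SpecialLinearGroup.transvection_inv h t

theorem val_mul (A B : SLn n) : (A * B).1 = A.1 * B.1 := rfl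

theorem mul_el_same (A : SLn n) {i j : Fin n} (h : i ≠ j) (t : ℤ) (a : Fin n) :
    (A * el h t).1 a j = A.1 a j + t * A.1 a i := by
  rw [val_mul, el_val, mul_transvection_apply_same]

theorem mul_el_ne (A : SLn n) {i j : Fin n} (h : i ≠ j) (t : ℤ) (a : Fin n) {b : Fin n}
    (hb : b ≠ j) : (A * el h t).1 a b = A.1 a b := by
  rw [val_mul, el_val, mul_transvection_apply_of_ne _ _ _ _ hb]

/-- the subgroup generated by the elementary matrices -/
def EG (n : ℕ) : Subgroup (SLn n) :=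
  Subgroup.closure {g | ∃ (i j : Fin n) (h : i ≠ j) (t : ℤ), g = el h t}

theorem el_mem {i j : Fin n} (h : i ≠ j) (t : ℤ) : el h t ∈ EG n :=
  Subgroup.subset_closure ⟨i, j, h, t, rfl⟩

/-- `H` is normalised by the elementary matrices and contains those with entries divisible by
`m` -/
structure Good (m : ℕ) (H : Subgroup (SLn n)) : Prop where
  nrm : ∀ {i j : Fin n} (h : i ≠ j) (t : ℤ), ∀ g ∈ H, el h t * g * (el h t)⁻¹ ∈ H
  mem : ∀ {i j : Fin n} (h : i ≠ j) (t : ℤ), el h (m * t) ∈ H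

theorem Good.conj2 {m : ℕ} {H : Subgroup (SLn n)} (hH : Good m H) {e : SLn n} (he : e ∈ EG n) :
    ∀ g ∈ H, e * g * e⁻¹ ∈ H ∧ e⁻¹ * g * e ∈ H := by
  induction he using Subgroup.closure_induction with
  | mem x hx =>
    obtain ⟨i, j, h, t, rfl⟩ := hx
    intro g hg
    refine ⟨hH.nrm h t g hg, ?_⟩
    have := hH.nrm h (-t) g hg
    rwa [← el_inv, inv_inv] at this
  | one =>
    intro g hg
    simpa using hg
  | mul x y _ _ hx hy =>
    intro g hg
    refine ⟨?_, ?_⟩
    · have := (hx _ (hy g hg).1).1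
      rwa [show x * (y * g * y⁻¹) * x⁻¹ = x * y * g * (x * y)⁻¹ by group] at this
    · have := (hy _ (hx g hg).2).2
      rwa [show y⁻¹ * (x⁻¹ * g * x) * y = (x * y)⁻¹ * g * (x * y) by group] at this
  | inv x hx h =>
    intro g hg
    refine ⟨?_, ?_⟩
    · simpa using (h g hg).2
    · simpa using (h g hg).1

theorem Good.conj {m : ℕ} {H : Subgroup (SLn n)} (hH : Good m H) {e : SLn n} (he : e ∈ EG n)
    {g : SLn n} (hg : g ∈ H) : e * g * e⁻¹ ∈ H := (hH.conj2 he g hg).1

theorem Good.conj_iff {m : ℕ} {H : Subgroup (SLn n)} (hH : Good m H) {e : SLn n} (he : e ∈ EG n)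
    {g : SLn n} (hg : e⁻¹ * g * e ∈ H) : g ∈ H := by
  have := hH.conj he hg
  rwa [show e * (e⁻¹ * g * e) * e⁻¹ = g by group] at this

theorem Good.mem' {m : ℕ} {H : Subgroup (SLn n)} (hH : Good m H) {i j : Fin n} (h : i ≠ j)
    {t : ℤ} (ht : (m : ℤ) ∣ t) : el h t ∈ H := by
  obtain ⟨s, rfl⟩ := ht
  exact hH.mem h s

/-- `A` is congruent to the identity modulo `m` -/
def Cong (m : ℕ) (A : SLn n) : Prop := SpecialLinearGroup.map (Int.castRingHom (ZMod m)) A = 1

theorem Cong.mul {m : ℕ} {A B : SLn n} (hA : Cong m A) (hB : Cong m B) : Cong m (A * B) := by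
  unfold Cong at *
  rw [map_mul, hA, hB, one_mul]

theorem Cong.inv {m : ℕ} {A : SLn n} (hA : Cong m A) : Cong m A⁻¹ := by
  unfold Cong at *
  rw [map_inv, hA, inv_one]

theorem Cong.conj {m : ℕ} {A : SLn n} (hA : Cong m A) (B : SLn n) : Cong m (B * A * B⁻¹) := by
  unfold Cong at *
  rw [map_mul, map_mul, hA, mul_one, map_inv, mul_inv_cancel]

theorem cong_iff {m : ℕ} {A : SLn n} :
    Cong m A ↔ ∀ i j, (m : ℤ) ∣ A.1 i j - (1 : Matrix (Fin n) (Fin n) ℤ) i j := by
  have key : ∀ i j, ((SpecialLinearGroup.map (Int.castRingHom (ZMod m)) A).1 i j =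
      ((1 : SpecialLinearGroup (Fin n) (ZMod m))).1 i j) ↔
      (m : ℤ) ∣ A.1 i j - (1 : Matrix (Fin n) (Fin n) ℤ) i j := by
    intro i j
    have h1 : ((SpecialLinearGroup.map (Int.castRingHom (ZMod m)) A).1 i j) =
        ((A.1 i j : ℤ) : ZMod m) := rfl
    have h2 : (((1 : SpecialLinearGroup (Fin n) (ZMod m))).1 i j) =
        (((1 : Matrix (Fin n) (Fin n) ℤ) i j : ℤ) : ZMod m) := by
      show (1 : Matrix (Fin n) (Fin n) (ZMod m)) i j = _
      rw [Matrix.one_apply, Matrix.one_apply]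
      split_ifs <;> simp
    rw [h1, h2, ← sub_eq_zero, ← Int.cast_sub, ZMod.intCast_zmod_eq_zero_iff_dvd]
  constructor
  · intro h i j
    exact (key i j).1 (congrArg (fun X : SpecialLinearGroup (Fin n) (ZMod m) => X.1 i j) h)
  · intro h
    apply Subtype.ext
    funext i j
    exact (key i j).2 (h i j)

theorem cong_el {m : ℕ} {i j : Fin n} (h : i ≠ j) {t : ℤ} (ht : (m : ℤ) ∣ t) :
    Cong m (el h t) := by
  rw [cong_iff]
  intro a b
  rw [el_val, transvection, Matrix.add_apply, add_sub_cancel_left, Matrix.single_apply]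
  split_ifs
  · exact ht
  · exact dvd_zero _

/-- Euclid's algorithm with elementary matrices in two columns -/
theorem euclid {k : ℕ} (i : Fin (k + 1)) (hi : i ≠ 0) : ∀ (N : ℕ) (v : Fin (k + 1) → ℤ),
    (v i).natAbs ≤ N → ∃ U ∈ EG (k + 1), (v ᵥ* U.1) i = 0 ∧
      ∀ j, j ≠ 0 → j ≠ i → (v ᵥ* U.1) j = v j := by
  have hvec : ∀ (v : Fin (k + 1) → ℤ) {a b : Fin (k + 1)} (h : a ≠ b) (t : ℤ),
      (v ᵥ* (el h t).1) b = v b + t * v a ∧ ∀ j, j ≠ b → (v ᵥ* (el h t).1) j = v j := by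
    intro v a b h t
    have h0 : v ᵥ* (el h t).1 = v + v ᵥ* Matrix.single a b t := by
      rw [el_val, transvection, Matrix.vecMul_add, Matrix.vecMul_one]
    refine ⟨?_, fun j hj => ?_⟩
    · rw [h0, Pi.add_apply]
      simp [Matrix.vecMul, dotProduct, Matrix.single_apply, mul_comm]
    · rw [h0, Pi.add_apply]
      simp [Matrix.vecMul, dotProduct, hj.symm]
  intro N
  induction N with
  | zero =>
    intro v hv
    refine ⟨1, one_mem _, ?_, ?_⟩
    · show (v ᵥ* (1 : Matrix _ _ ℤ)) i = 0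
      rw [Matrix.vecMul_one]
      exact Int.natAbs_eq_zero.1 (Nat.le_zero.1 hv)
    · intro j _ _
      show (v ᵥ* (1 : Matrix _ _ ℤ)) j = v j
      rw [Matrix.vecMul_one]
  | succ N ih =>
    intro v hv
    by_cases h0 : v i = 0
    · refine ⟨1, one_mem _, ?_, ?_⟩
      · show (v ᵥ* (1 : Matrix _ _ ℤ)) i = 0
        rw [Matrix.vecMul_one]
        exact h0
      · intro j _ _
        show (v ᵥ* (1 : Matrix _ _ ℤ)) j = v j
        rw [Matrix.vecMul_one]
    -- first make the entry at `0` small and positive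
    set r := (v 0) % (v i) with hr
    have hr0 : 0 ≤ r := Int.emod_nonneg _ h0
    have hr1 : r < |v i| := Int.emod_lt_abs _ h0
    let U1 : SLn (k + 1) := el hi (-(v 0 / v i))
    let v1 := v ᵥ* U1.1
    have h1 := hvec v hi (-(v 0 / v i))
    have e10 : v1 0 = r := by
      have : v1 0 = v 0 + (-(v 0 / v i)) * v i := h1.1
      rw [this, hr]
      have := Int.emod_add_mul_ediv (v 0) (v i)
      linarith [this, mul_comm (v i) (v 0 / v i)]
    have e1i : v1 i = v i := h1.2 i hi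
    have e1j : ∀ j, j ≠ 0 → v1 j = v j := fun j hj => h1.2 j hj
    by_cases hr2 : r = 0
    · -- add the entry `i` to the entry `0` and subtract
      let U2 : SLn (k + 1) := el hi 1
      let v2 := v1 ᵥ* U2.1
      have h2 := hvec v1 hi 1
      let U3 : SLn (k + 1) := el hi.symm (-1)
      have h3 := hvec v2 hi.symm (-1)
      refine ⟨U1 * U2 * U3, mul_mem (mul_mem (el_mem _ _) (el_mem _ _)) (el_mem _ _), ?_, ?_⟩
      · have e : v ᵥ* (U1 * U2 * U3).1 = v2 ᵥ* U3.1 := by
          rw [val_mul, val_mul, ← Matrix.vecMul_vecMul, ← Matrix.vecMul_vecMul]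
        rw [e, h3.1]
        have a1 : v2 i = v1 i := h2.2 i hi
        have a2 : v2 0 = v1 0 + 1 * v1 i := h2.1
        rw [a1, a2, e10, hr2]
        ring
      · intro j hj0 hji
        have e : v ᵥ* (U1 * U2 * U3).1 = v2 ᵥ* U3.1 := by
          rw [val_mul, val_mul, ← Matrix.vecMul_vecMul, ← Matrix.vecMul_vecMul]
        rw [e, h3.2 j hji]
        have a1 : v2 j = v1 j := h2.2 j hj0
        rw [a1, e1j j hj0]
    · -- reduce the entry `i`
      let U2 : SLn (k + 1) := el hi.symm (-(v i / r))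
      let v2 := v1 ᵥ* U2.1
      have h2 := hvec v1 hi.symm (-(v i / r))
      have e2i : v2 i = v i % r := by
        have : v2 i = v1 i + (-(v i / r)) * v1 0 := h2.1
        rw [this, e10, e1i]
        have := Int.emod_add_mul_ediv (v i) r
        linarith [this, mul_comm r (v i / r)]
      have hlt : (v2 i).natAbs ≤ N := by
        rw [e2i]
        have a1 : 0 ≤ v i % r := Int.emod_nonneg _ hr2
        have a2 : v i % r < r := by
          have := Int.emod_lt_abs (v i) hr2
          rwa [abs_of_nonneg hr0] at this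
        have a3 : |v i| = ((v i).natAbs : ℤ) := (Int.natCast_natAbs _).symm
        omega
      obtain ⟨U, hU, hUi, hUj⟩ := ih v2 hlt
      have e : v ᵥ* (U1 * U2 * U).1 = v2 ᵥ* U.1 := by
        rw [val_mul, val_mul, ← Matrix.vecMul_vecMul, ← Matrix.vecMul_vecMul]
      refine ⟨U1 * U2 * U, mul_mem (mul_mem (el_mem _ _) (el_mem _ _)) hU, ?_, ?_⟩
      · rw [e, hUi]
      · intro j hj0 hji
        rw [e, hUj j hj0 hji]
        have a1 : v2 j = v1 j := h2.2 j hji
        rw [a1, e1j j hj0]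

theorem euclid_all {k : ℕ} (v : Fin (k + 1) → ℤ) :
    ∃ U ∈ EG (k + 1), ∀ j, j ≠ 0 → (v ᵥ* U.1) j = 0 := by
  have key : ∀ S : Finset (Fin (k + 1)), 0 ∉ S → ∃ U ∈ EG (k + 1), ∀ j ∈ S, (v ᵥ* U.1) j = 0 := by
    intro S
    induction S using Finset.induction_on with
    | empty => exact fun _ => ⟨1, one_mem _, by simp⟩
    | insert a S ha ih =>
      intro h0
      rw [Finset.mem_insert, not_or] at h0
      obtain ⟨U, hU, h⟩ := ih h0.2
      obtain ⟨U', hU', h1, h2⟩ := euclid a (Ne.symm h0.1) _ (v ᵥ* U.1) le_rfl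
      refine ⟨U * U', mul_mem hU hU', ?_⟩
      intro j hj
      rw [val_mul, ← Matrix.vecMul_vecMul]
      by_cases hja : j = a
      · rw [hja]; exact h1
      · rw [Finset.mem_insert] at hj
        have hjS := hj.resolve_left hja
        rw [h2 j (fun e => h0.2 (e ▸ hjS)) hja]
        exact h j hjS
  obtain ⟨U, hU, h⟩ := key (Finset.univ.erase 0) (by simp)
  exact ⟨U, hU, fun j hj => h j (by simp [hj])⟩

/-- the embedding in the lower right corner -/
def bd (n : ℕ) : SLn n →* SLn (n + 1) where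
  toFun U := ⟨bx 1 0 0 U.1, by rw [bx_det_row, U.2, one_mul]⟩
  map_one' := Subtype.ext bx_one
  map_mul' U V := by
    apply Subtype.ext
    show bx 1 0 0 (U.1 * V.1) = bx 1 0 0 U.1 * bx 1 0 0 V.1
    rw [bx_mul]
    apply bx_ext <;> intros <;> simp [vecMulVec_apply]

theorem bd_val (U : SLn n) : (bd n U).1 = bx 1 0 0 U.1 := rfl

theorem bd_el {i j : Fin n} (h : i ≠ j) (t : ℤ) :
    bd n (el h t) = el (fun e => h (Fin.succ_injective _ e)) t :=
  Subtype.ext (bx_transv i j t)

theorem bd_EG {U : SLn n} (hU : U ∈ EG n) : bd n U ∈ EG (n + 1) := by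
  induction hU using Subgroup.closure_induction with
  | mem x hx =>
    obtain ⟨i, j, h, t, rfl⟩ := hx
    rw [bd_el]
    exact el_mem _ _
  | one => rw [map_one]; exact one_mem _
  | mul x y _ _ hx hy => rw [map_mul]; exact mul_mem hx hy
  | inv x _ hx => rw [map_inv]; exact inv_mem hx

/-- a column with entries divisible by `m` -/
theorem col_mem {m : ℕ} {H : Subgroup (SLn (n + 1))} (hH : Good m H) (y : Fin n → ℤ)
    (hy : ∀ i, (m : ℤ) ∣ y i) (L : SLn (n + 1)) (hL : L.1 = bx 1 0 y 1) : L ∈ H := by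
  have key : ∀ s : Finset (Fin n), ∀ L : SLn (n + 1),
      L.1 = bx 1 0 (∑ j ∈ s, Pi.single j (y j)) 1 → L ∈ H := by
    intro s
    induction s using Finset.induction_on with
    | empty =>
      intro L hL
      rw [Finset.sum_empty, bx_one] at hL
      have : L = 1 := Subtype.ext hL
      rw [this]
      exact one_mem _
    | insert a s ha ih =>
      intro L hL
      rw [Finset.sum_insert ha, bx_col_add] at hL
      have h1 : (bx 1 0 (Pi.single a (y a)) 1 : Matrix _ _ ℤ) =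
          transvection a.succ (0 : Fin (n + 1)) (y a) := by
        apply bx_ext
        · simp [transvection]
        · intro j; simp [transvection, (Fin.succ_ne_zero j).symm]
        · intro i
          simp only [bx_s0, transvection, Matrix.add_apply, Matrix.one_apply, Matrix.single_apply,
            Pi.single_apply, Fin.succ_ne_zero i, if_false, zero_add, and_true, Fin.succ_inj]
          by_cases h : i = a
          · simp [h]
          · simp [h, Ne.symm h]
        · intro i j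
          simp [transvection, Matrix.one_apply, (Fin.succ_ne_zero j).symm]
      have h2 : (bx 1 0 (∑ j ∈ s, Pi.single j (y j)) 1 : Matrix _ _ ℤ).det = 1 := by
        rw [bx_det_row]; simp
      have h3 : L = el (Fin.succ_ne_zero a) (y a) *
          ⟨bx 1 0 (∑ j ∈ s, Pi.single j (y j)) 1, h2⟩ := by
        apply Subtype.ext
        rw [hL, h1]
        rfl
      rw [h3]
      exact mul_mem (hH.mem' _ (hy a)) (ih _ rfl)
  apply key Finset.univ L
  rw [hL]
  congr 1
  funext i
  rw [Finset.sum_apply]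
  simp [Pi.single_apply]

/-- **Reduction of the size.** -/
theorem reduce {k m : ℕ} {H : Subgroup (SLn (k + 3))} (hH : Good m H)
    (base : ∀ A : SLn (k + 2), Cong m A → bd (k + 2) A ∈ H) (A : SLn (k + 3)) (hA : Cong m A) :
    A ∈ H := by
  obtain ⟨U, hU, hU0⟩ := euclid_all (k := k + 1) (fun j => A.1 0 j.succ)
  apply hH.conj_iff (bd_EG hU)
  set A1 := (bd (k + 2) U)⁻¹ * A * bd (k + 2) U with hA1
  have c1 : Cong m A1 := by
    have := hA.conj (bd (k + 2) U)⁻¹
    rwa [inv_inv] at this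
  -- the first row
  have r1 : ∀ j, A1.1 0 j = (A * bd (k + 2) U).1 0 j := by
    intro j
    have e : A1 = bd (k + 2) U⁻¹ * (A * bd (k + 2) U) := by
      rw [hA1, map_inv, mul_assoc]
    rw [e, val_mul, bd_val, Matrix.mul_apply, Fin.sum_univ_succ]
    simp
  have r2 : ∀ j : Fin (k + 2), j ≠ 0 → A1.1 0 j.succ = 0 := by
    intro j hj
    rw [r1, val_mul, bd_val, Matrix.mul_apply, Fin.sum_univ_succ]
    simp only [bx_0s, bx_ss, Pi.zero_apply, mul_zero, zero_add]
    exact hU0 j hj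
  have hbez : A1.1 0 0 * (A1⁻¹).1 0 0 + A1.1 0 1 * (A1⁻¹).1 1 0 = 1 := by
    have h1 : (A1 * A1⁻¹).1 0 0 = 1 := by rw [mul_inv_cancel]; rfl
    rw [val_mul, Matrix.mul_apply, Fin.sum_univ_succ, Fin.sum_univ_succ] at h1
    have h2 : ∀ i : Fin (k + 1), A1.1 0 i.succ.succ * (A1⁻¹).1 i.succ.succ 0 = 0 := by
      intro i
      rw [r2 i.succ (Fin.succ_ne_zero i), zero_mul]
    rw [Finset.sum_congr rfl fun i _ => h2 i, Finset.sum_const_zero, add_zero] at h1
    exact h1
  have cc := cong_iff.1 c1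
  obtain ⟨q, hq⟩ : (m : ℤ) ∣ A1.1 0 0 - 1 := by
    have := cc 0 0
    rwa [Matrix.one_apply_eq] at this
  have hg : (m : ℤ) ∣ A1.1 0 1 := by
    have := cc 0 1
    rwa [Matrix.one_apply_ne (by simp [Fin.ext_iff]), sub_zero] at this
  set x := (A1⁻¹).1 0 0
  set y := (A1⁻¹).1 1 0
  have n02 : (0 : Fin (k + 3)) ≠ 2 := (Fin.succ_ne_zero (1 : Fin (k + 2))).symm
  have n12 : (1 : Fin (k + 3)) ≠ 2 := by
    intro e
    have : (0 : Fin (k + 2)).succ = (1 : Fin (k + 2)).succ := e
    have := Fin.succ_injective _ this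
    simp at this
  have n01 : (0 : Fin (k + 3)) ≠ 1 := by simp [Fin.ext_iff]
  have n20 : (2 : Fin (k + 3)) ≠ 0 := n02.symm
  have z2 : A1.1 0 2 = 0 := r2 1 (by simp)
  let B := A1 * el n02 (m * x) * el n12 (m * y)
  let C := B * el n20 (-q) * el n01 (-(A1.1 0 1)) * el n02 (-m) * el n20 q
  have hBH : el n02 (m * x) * el n12 (m * y) ∈ H := mul_mem (hH.mem _ _) (hH.mem _ _)
  have hCH : el n20 (-q) * (el n01 (-(A1.1 0 1)) * el n02 (-m)) * (el n20 (-q))⁻¹ ∈ H :=
    hH.conj (el_mem _ _) (mul_mem (hH.mem' _ (dvd_neg.2 hg)) (hH.mem' _ (dvd_neg.2 dvd_rfl)))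
  have hCe : C = A1 * ((el n02 (m * x) * el n12 (m * y)) *
      (el n20 (-q) * (el n01 (-(A1.1 0 1)) * el n02 (-m)) * (el n20 (-q))⁻¹)) := by
    simp only [C, B, el_inv, neg_neg]
    simp only [mul_assoc]
  have hCA : C ∈ H → A1 ∈ H := by
    intro h
    rw [hCe] at h
    exact (Subgroup.mul_mem_cancel_right _ (mul_mem hBH hCH)).1 h
  apply hCA
  -- the first row of `C`
  have b0 : B.1 0 0 = A1.1 0 0 := by
    rw [mul_el_ne _ _ _ _ n02, mul_el_ne _ _ _ _ n02]
  have b1 : B.1 0 1 = A1.1 0 1 := by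
    rw [mul_el_ne _ _ _ _ n12, mul_el_ne _ _ _ _ n12]
  have b2 : B.1 0 2 = m := by
    rw [mul_el_same, mul_el_same, mul_el_ne _ _ _ _ n12, z2]
    linear_combination (m : ℤ) * hbez
  have bj : ∀ j : Fin (k + 3), j ≠ 0 → j ≠ 1 → j ≠ 2 → B.1 0 j = 0 := by
    intro j h0 h1 h2
    rw [mul_el_ne _ _ _ _ h2, mul_el_ne _ _ _ _ h2]
    obtain ⟨j', rfl⟩ := Fin.exists_succ_eq.2 h0
    exact r2 j' (fun e => h1 (by rw [e]; rfl))
  have c0 : C.1 0 0 = 1 ∧ ∀ j, j ≠ 0 → C.1 0 j = 0 := by
    let D := B * el n20 (-q)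
    have d0 : D.1 0 0 = 1 := by
      rw [mul_el_same, b0, b2]
      linear_combination hq
    have dj : ∀ j, j ≠ 0 → D.1 0 j = B.1 0 j := fun j hj => mul_el_ne _ _ _ _ hj
    let E' := D * el n01 (-(A1.1 0 1))
    have e0 : E'.1 0 0 = 1 := by rw [mul_el_ne _ _ _ _ n01, d0]
    have e1 : E'.1 0 1 = 0 := by rw [mul_el_same, dj 1 n01.symm, b1, d0]; ring
    have ej : ∀ j, j ≠ 0 → j ≠ 1 → E'.1 0 j = B.1 0 j := by
      intro j h0 h1
      rw [mul_el_ne _ _ _ _ h1, dj j h0]
    let G := E' * el n02 (-m)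
    have g0 : G.1 0 0 = 1 := by rw [mul_el_ne _ _ _ _ n02, e0]
    have gj : ∀ j, j ≠ 0 → G.1 0 j = 0 := by
      intro j hj
      by_cases h2 : j = 2
      · subst h2
        rw [mul_el_same, ej 2 n20 n12.symm, b2, e0]
        ring
      · rw [mul_el_ne _ _ _ _ h2]
        by_cases h1 : j = 1
        · subst h1; exact e1
        · rw [ej j hj h1]; exact bj j hj h1 h2
    have hC : C = G * el n20 q := rfl
    refine ⟨?_, fun j hj => ?_⟩
    · rw [hC, mul_el_same, g0, gj 2 n20]; ring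
    · rw [hC, mul_el_ne _ _ _ _ hj, gj j hj]
  have cC : Cong m C := by
    rw [hCe]
    refine c1.mul (Cong.mul (Cong.mul (cong_el _ ⟨_, rfl⟩) (cong_el _ ⟨_, rfl⟩)) ?_)
    exact Cong.conj (Cong.mul (cong_el _ (dvd_neg.2 hg)) (cong_el _ (dvd_neg.2 dvd_rfl))) _
  -- clear the first column
  let yy : Fin (k + 2) → ℤ := fun i => C.1 i.succ 0
  let M : Matrix (Fin (k + 2)) (Fin (k + 2)) ℤ := Matrix.of fun i j => C.1 i.succ j.succ
  have hCx : C.1 = bx 1 0 yy M := by
    apply bx_ext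
    · exact c0.1
    · intro j; exact c0.2 _ (Fin.succ_ne_zero j)
    · intro i; rfl
    · intro i j; rfl
  have hM : M.det = 1 := by
    have := C.2
    rw [hCx, bx_det_row, one_mul] at this
    exact this
  have hyy : ∀ i, (m : ℤ) ∣ yy i := by
    intro i
    have := cong_iff.1 cC i.succ 0
    rwa [Matrix.one_apply_ne (Fin.succ_ne_zero i), sub_zero] at this
  have hL1 : (bx 1 0 yy 1 : Matrix (Fin (k + 3)) (Fin (k + 3)) ℤ).det = 1 := by
    rw [bx_det_row]; simp
  let L : SLn (k + 3) := ⟨bx 1 0 yy 1, hL1⟩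
  have hL : L ∈ H := col_mem hH yy hyy L rfl
  have hCL : C = L * bd (k + 2) ⟨M, hM⟩ := by
    apply Subtype.ext
    rw [hCx, val_mul, bd_val]
    show _ = bx 1 0 yy 1 * bx 1 0 0 M
    rw [bx_mul]
    apply bx_ext <;> intros <;> simp [vecMulVec_apply]
  rw [hCL]
  refine mul_mem hL (base _ ?_)
  rw [cong_iff]
  intro i j
  have := cong_iff.1 cC i.succ j.succ
  have e : (1 : Matrix (Fin (k + 3)) (Fin (k + 3)) ℤ) i.succ j.succ =
      (1 : Matrix (Fin (k + 2)) (Fin (k + 2)) ℤ) i j := by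
    rw [Matrix.one_apply, Matrix.one_apply]
    simp
  rwa [e] at this

end Pool.Agent.W5h84.MT
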