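import Pool.Agent.W5h84.MT.Red
import Mathlib.NumberTheory.ModularForms.LevelOne.Basic

/-!
# Mennicke symbols of `SL_3(ℤ)`
-/

set_option autoImplicit false
set_option linter.unusedSimpArgs false

namespace Pool.Agent.W5h84.MT

open Matrix

theorem gen2 : EG 2 = ⊤ := by
  rw [eq_top_iff, ← SpecialLinearGroup.SL2Z_generators, Subgroup.closure_le]
  have h01 : (0 : Fin 2) ≠ 1 := by decide
  rintro x (rfl | rfl)
  · have : ModularGroup.S = el h01 (-1) * el h01.symm 1 * el h01 (-1) := by
      apply Subtype.ext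
      show _ = transvection 0 1 (-1) * transvection 1 0 1 * transvection 0 1 (-1)
      rw [ModularGroup.coe_S]
      refine Matrix.ext fun i j => ?_
      fin_cases i <;> fin_cases j <;>
        simp [Matrix.transvection, Matrix.single_apply, Matrix.one_apply, Matrix.mul_apply,
          Fin.sum_univ_succ]
    rw [this]
    exact mul_mem (mul_mem (el_mem _ _) (el_mem _ _)) (el_mem _ _)
  · have : ModularGroup.T = el h01 1 := by
      apply Subtype.ext
      show _ = transvection 0 1 1
      rw [ModularGroup.coe_T]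
      refine Matrix.ext fun i j => ?_
      fin_cases i <;> fin_cases j <;>
        simp [Matrix.transvection, Matrix.single_apply, Matrix.one_apply]
    rw [this]
    exact el_mem _ _

/-- `SL_n(ℤ)` is generated by the elementary matrices -/
theorem gen (k : ℕ) : EG (k + 2) = ⊤ := by
  induction k with
  | zero => exact gen2
  | succ k ih =>
    rw [eq_top_iff]
    intro A _
    have hG : Good 1 (EG (k + 3)) := by
      refine ⟨fun h t g hg => mul_mem (mul_mem (el_mem _ _) hg) (inv_mem (el_mem _ _)),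
        fun h t => el_mem _ _⟩
    refine reduce hG (fun A' _ => bd_EG (by rw [ih]; trivial)) A ?_
    rw [cong_iff]
    intro i j
    simp

theorem Good.normal {k m : ℕ} {H : Subgroup (SLn (k + 2))} (hH : Good m H) : H.Normal :=
  ⟨fun g hg x => hH.conj (by rw [gen]; trivial) hg⟩

section three

/-- blocks -/
def b01 (a b c d : ℤ) (h : a * d - b * c = 1) : SLn 3 :=
  ⟨!![a, b, 0; c, d, 0; 0, 0, 1], by rw [det_fin_three]; simp; linear_combination h⟩

/-- blocks -/
def b12 (a b c d : ℤ) (h : a * d - b * c = 1) : SLn 3 :=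
  ⟨!![1, 0, 0; 0, a, b; 0, c, d], by rw [det_fin_three]; simp; linear_combination h⟩

/-- blocks -/
def b02 (a b c d : ℤ) (h : a * d - b * c = 1) : SLn 3 :=
  ⟨!![a, 0, b; 0, 1, 0; c, 0, d], by rw [det_fin_three]; simp; linear_combination h⟩

theorem n01 : (0 : Fin 3) ≠ 1 := by decide
theorem n02 : (0 : Fin 3) ≠ 2 := by decide
theorem n12 : (1 : Fin 3) ≠ 2 := by decide

theorem v01 (t : ℤ) : (el n01 t).1 = !![1, t, 0; 0, 1, 0; 0, 0, 1] := by
  change Matrix.transvection 0 1 t = _
  refine Matrix.ext fun i j => ?_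
  fin_cases i <;> fin_cases j <;> simp [Matrix.transvection, Matrix.single_apply, Matrix.one_apply]

theorem v10 (t : ℤ) : (el n01.symm t).1 = !![1, 0, 0; t, 1, 0; 0, 0, 1] := by
  change Matrix.transvection 1 0 t = _
  refine Matrix.ext fun i j => ?_
  fin_cases i <;> fin_cases j <;> simp [Matrix.transvection, Matrix.single_apply, Matrix.one_apply]

theorem v02 (t : ℤ) : (el n02 t).1 = !![1, 0, t; 0, 1, 0; 0, 0, 1] := by
  change Matrix.transvection 0 2 t = _
  refine Matrix.ext fun i j => ?_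
  fin_cases i <;> fin_cases j <;> simp [Matrix.transvection, Matrix.single_apply, Matrix.one_apply]

theorem v20 (t : ℤ) : (el n02.symm t).1 = !![1, 0, 0; 0, 1, 0; t, 0, 1] := by
  change Matrix.transvection 2 0 t = _
  refine Matrix.ext fun i j => ?_
  fin_cases i <;> fin_cases j <;> simp [Matrix.transvection, Matrix.single_apply, Matrix.one_apply]

theorem v12 (t : ℤ) : (el n12 t).1 = !![1, 0, 0; 0, 1, t; 0, 0, 1] := by
  change Matrix.transvection 1 2 t = _
  refine Matrix.ext fun i j => ?_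
  fin_cases i <;> fin_cases j <;> simp [Matrix.transvection, Matrix.single_apply, Matrix.one_apply]

theorem v21 (t : ℤ) : (el n12.symm t).1 = !![1, 0, 0; 0, 1, 0; 0, t, 1] := by
  change Matrix.transvection 2 1 t = _
  refine Matrix.ext fun i j => ?_
  fin_cases i <;> fin_cases j <;> simp [Matrix.transvection, Matrix.single_apply, Matrix.one_apply]

/-- cyclic permutation -/
def w3 : SLn 3 := ⟨!![0, 0, 1; 1, 0, 0; 0, 1, 0], by rw [det_fin_three]; simp⟩

/-- signed transposition -/
def w2 : SLn 3 := ⟨!![1, 0, 0; 0, 0, -1; 0, 1, 0], by rw [det_fin_three]; simp⟩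

theorem w3_eq (a b c d : ℤ) (h : a * d - b * c = 1) : w3 * b01 a b c d h = b12 a b c d h * w3 := by
  apply Subtype.ext
  show !![0, 0, 1; 1, 0, 0; 0, 1, 0] * !![a, b, 0; c, d, 0; 0, 0, 1] =
    !![1, 0, 0; 0, a, b; 0, c, d] * !![0, 0, 1; 1, 0, 0; 0, 1, 0]
  simp

theorem w2_eq (a b c d : ℤ) (h : a * d - b * c = 1) : w2 * b01 a b c d h = b02 a b c d h * w2 := by
  apply Subtype.ext
  show !![1, 0, 0; 0, 0, -1; 0, 1, 0] * !![a, b, 0; c, d, 0; 0, 0, 1] =
    !![a, 0, b; 0, 1, 0; c, 0, d] * !![1, 0, 0; 0, 0, -1; 0, 1, 0]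
  simp

theorem c02 (a b c d : ℤ) (h : a * d - b * c = 1) (t : ℤ) :
    b01 a b c d h * el n02 t = el n02 (t * a) * el n12 (t * c) * b01 a b c d h := by
  apply Subtype.ext
  rw [val_mul, val_mul, val_mul, v02, v02, v12]
  show !![a, b, 0; c, d, 0; 0, 0, 1] * _ = _ * !![a, b, 0; c, d, 0; 0, 0, 1]
  simp [mul_comm]

theorem c12 (a b c d : ℤ) (h : a * d - b * c = 1) (t : ℤ) :
    b01 a b c d h * el n12 t = el n02 (t * b) * el n12 (t * d) * b01 a b c d h := by
  apply Subtype.ext
  rw [val_mul, val_mul, val_mul, v12, v02, v12]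
  show !![a, b, 0; c, d, 0; 0, 0, 1] * _ = _ * !![a, b, 0; c, d, 0; 0, 0, 1]
  simp [mul_comm]

theorem c20 (a b c d : ℤ) (h : a * d - b * c = 1) (t : ℤ) :
    el n02.symm t * b01 a b c d h = b01 a b c d h * (el n02.symm (t * a) * el n12.symm (t * b)) := by
  apply Subtype.ext
  rw [val_mul, val_mul, val_mul, v20, v20, v21]
  show _ * !![a, b, 0; c, d, 0; 0, 0, 1] = !![a, b, 0; c, d, 0; 0, 0, 1] * _
  simp

theorem c21 (a b c d : ℤ) (h : a * d - b * c = 1) (t : ℤ) :
    el n12.symm t * b01 a b c d h = b01 a b c d h * (el n02.symm (t * c) * el n12.symm (t * d)) := by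
  apply Subtype.ext
  rw [val_mul, val_mul, val_mul, v21, v20, v21]
  show _ * !![a, b, 0; c, d, 0; 0, 0, 1] = !![a, b, 0; c, d, 0; 0, 0, 1] * _
  simp

theorem g01 (t : ℤ) : el n01 t = el n02 t * el n12.symm 1 * (el n02 t)⁻¹ * (el n12.symm 1)⁻¹ := by
  apply Subtype.ext
  rw [el_inv, el_inv, val_mul, val_mul, val_mul, v01, v02, v21, v02, v21]
  simp

theorem g10 (t : ℤ) : el n01.symm t =
    el n12 t * el n02.symm 1 * (el n12 t)⁻¹ * (el n02.symm 1)⁻¹ := by
  apply Subtype.ext
  rw [el_inv, el_inv, val_mul, val_mul, val_mul, v10, v12, v20, v12, v20]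
  simp

/-- Multiplicativity of the Mennicke symbol. -/
theorem key (a b c d b' c' d' : ℤ) (h : a * d - b * c = 1) (h' : a * d' - b' * c' = 1)
    (h'' : a * (d' - b' * c' * d) - (b * b') * (-(c * c')) = 1) :
    el n12.symm (-c') * (b01 a b c d h * b12 a b' c' d' h') * el n01 (-b) * el n01.symm (-c) *
      el n12 (-(d * b')) = b02 a (b * b') (-(c * c')) (d' - b' * c' * d) h'' := by
  apply Subtype.ext
  rw [val_mul, val_mul, val_mul, val_mul, val_mul, v21, v01, v10, v12]
  show !![1, 0, 0; 0, 1, 0; 0, -c', 1] * (!![a, b, 0; c, d, 0; 0, 0, 1] *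
    !![1, 0, 0; 0, a, b'; 0, c', d']) * !![1, -b, 0; 0, 1, 0; 0, 0, 1] *
    !![1, 0, 0; -c, 1, 0; 0, 0, 1] * !![1, 0, 0; 0, 1, -(d * b'); 0, 0, 1] =
    !![a, 0, b * b'; 0, 1, 0; -(c * c'), 0, d' - b' * c' * d]
  simp only [Matrix.mul_fin_three]
  refine Matrix.ext fun i j => ?_
  fin_cases i <;> fin_cases j <;> simp
  · left; ring
  · ring
  · left; ring
  · linear_combination (-c) * h
  · linear_combination h
  · linear_combination (-(d * b')) * h
  · linear_combination (c' * c) * h
  · linear_combination (-c') * h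
  · linear_combination (c' * d * b') * h

variable {H : Subgroup (SLn 3)} [H.Normal] {m : ℕ}

/-- the class modulo `H` -/
abbrev cl (H : Subgroup (SLn 3)) [H.Normal] : SLn 3 →* SLn 3 ⧸ H := QuotientGroup.mk' H

theorem cl_el (hH : Good m H) {i j : Fin 3} (h : i ≠ j) {t : ℤ} (ht : (m : ℤ) ∣ t) :
    cl H (el h t) = 1 := (QuotientGroup.eq_one_iff _).2 (hH.mem' h ht)

theorem cl_el_add (hH : Good m H) {i j : Fin 3} (h : i ≠ j) {s t : ℤ} (ht : (m : ℤ) ∣ t - s) :
    cl H (el h t) = cl H (el h s) := by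
  have : t = s + (t - s) := by ring
  rw [this, el_add, map_mul, cl_el hH h ht, mul_one]

/-- blocks congruent to one are central modulo `H` -/
theorem central (hH : Good m H) (a b c d : ℤ) (h : a * d - b * c = 1) (ha : (m : ℤ) ∣ a - 1)
    (hb : (m : ℤ) ∣ b) (hc : (m : ℤ) ∣ c) (hd : (m : ℤ) ∣ d - 1) (g : SLn 3) :
    cl H g * cl H (b01 a b c d h) = cl H (b01 a b c d h) * cl H g := by
  have hg : g ∈ EG 3 := by rw [gen 1]; trivial
  have h02 : ∀ t, cl H (el n02 t) * cl H (b01 a b c d h) =
      cl H (b01 a b c d h) * cl H (el n02 t) := by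
    intro t
    have := congrArg (cl H) (c02 a b c d h t)
    rw [map_mul, map_mul, map_mul, cl_el hH n12 (dvd_mul_of_dvd_right hc t), mul_one,
      cl_el_add hH n02 (s := t) (t := t * a) (by
        have : t * a - t = t * (a - 1) := by ring
        rw [this]; exact dvd_mul_of_dvd_right ha t)] at this
    exact this.symm
  have h12 : ∀ t, cl H (el n12 t) * cl H (b01 a b c d h) =
      cl H (b01 a b c d h) * cl H (el n12 t) := by
    intro t
    have := congrArg (cl H) (c12 a b c d h t)
    rw [map_mul, map_mul, map_mul, cl_el hH n02 (dvd_mul_of_dvd_right hb t), one_mul,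
      cl_el_add hH n12 (s := t) (t := t * d) (by
        have : t * d - t = t * (d - 1) := by ring
        rw [this]; exact dvd_mul_of_dvd_right hd t)] at this
    exact this.symm
  have h20 : ∀ t, cl H (el n02.symm t) * cl H (b01 a b c d h) =
      cl H (b01 a b c d h) * cl H (el n02.symm t) := by
    intro t
    have := congrArg (cl H) (c20 a b c d h t)
    rw [map_mul, map_mul, map_mul, cl_el hH n12.symm (dvd_mul_of_dvd_right hb t), mul_one,
      cl_el_add hH n02.symm (s := t) (t := t * a) (by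
        have : t * a - t = t * (a - 1) := by ring
        rw [this]; exact dvd_mul_of_dvd_right ha t)] at this
    exact this
  have h21 : ∀ t, cl H (el n12.symm t) * cl H (b01 a b c d h) =
      cl H (b01 a b c d h) * cl H (el n12.symm t) := by
    intro t
    have := congrArg (cl H) (c21 a b c d h t)
    rw [map_mul, map_mul, map_mul, cl_el hH n02.symm (dvd_mul_of_dvd_right hc t), one_mul,
      cl_el_add hH n12.symm (s := t) (t := t * d) (by
        have : t * d - t = t * (d - 1) := by ring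
        rw [this]; exact dvd_mul_of_dvd_right hd t)] at this
    exact this
  have hcomm : ∀ x y : SLn 3, Commute (cl H x) (cl H (b01 a b c d h)) →
      Commute (cl H y) (cl H (b01 a b c d h)) →
      Commute (cl H (x * y * x⁻¹ * y⁻¹)) (cl H (b01 a b c d h)) := by
    intro x y hx hy
    rw [map_mul, map_mul, map_mul, map_inv, map_inv]
    exact ((hx.mul_left hy).mul_left hx.inv_left).mul_left hy.inv_left
  change Commute (cl H g) (cl H (b01 a b c d h))
  induction hg using Subgroup.closure_induction with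
  | mem x hx =>
    obtain ⟨i, j, hij, t, rfl⟩ := hx
    fin_cases i <;> fin_cases j
    · exact absurd rfl hij
    · change Commute (cl H (el n01 t)) _
      rw [g01]
      exact hcomm _ _ (h02 t) (h21 1)
    · exact h02 t
    · change Commute (cl H (el n01.symm t)) _
      rw [g10]
      exact hcomm _ _ (h12 t) (h20 1)
    · exact absurd rfl hij
    · exact h12 t
    · exact h20 t
    · exact h21 t
    · exact absurd rfl hij
  | one => rw [map_one]; exact Commute.one_left _
  | mul x y _ _ hx hy => rw [map_mul]; exact hx.mul_left hy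
  | inv x _ hx => rw [map_inv]; exact hx.inv_left

/-- the Mennicke symbol -/
noncomputable def sym (H : Subgroup (SLn 3)) [H.Normal] (m : ℕ) (a b : ℤ) : SLn 3 ⧸ H :=
  open Classical in
  if h : ∃ c d : ℤ, a * d - b * c = 1 ∧ (m : ℤ) ∣ c then
    cl H (b01 a b h.choose h.choose_spec.choose h.choose_spec.choose_spec.1) else 1

theorem b01_congr {a b c d a' b' c' d' : ℤ} (h : a * d - b * c = 1) (h' : a' * d' - b' * c' = 1)
    (ea : a = a') (eb : b = b') (ec : c = c') (ed : d = d') : b01 a b c d h = b01 a' b' c' d' h' := by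
  subst ea eb ec ed
  rfl

theorem low_eq (a b c d t : ℤ) (h : a * d - b * c = 1)
    (h' : a * (d + t * b) - b * (c + t * a) = 1) :
    el n01.symm t * b01 a b c d h = b01 a b (c + t * a) (d + t * b) h' := by
  apply Subtype.ext
  rw [val_mul, v10]
  show _ * !![a, b, 0; c, d, 0; 0, 0, 1] = !![a, b, 0; c + t * a, d + t * b, 0; 0, 0, 1]
  simp [add_comm]

theorem up_eq (a b c d t : ℤ) (h : a * d - b * c = 1)
    (h' : a * (d + t * c) - (b + t * a) * c = 1) :
    b01 a b c d h * el n01 t = b01 a (b + t * a) c (d + t * c) h' := by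
  apply Subtype.ext
  rw [val_mul, v01]
  show !![a, b, 0; c, d, 0; 0, 0, 1] * _ = !![a, b + t * a, 0; c, d + t * c, 0; 0, 0, 1]
  simp [add_comm, mul_comm]

theorem cj_eq (a b c d t : ℤ) (h : a * d - b * c = 1)
    (h' : (a + t * b) * (d - t * b) - b * (c + t * d - t * (a + t * b)) = 1) :
    el n01.symm (-t) * b01 a b c d h * el n01.symm t =
      b01 (a + t * b) b (c + t * d - t * (a + t * b)) (d - t * b) h' := by
  apply Subtype.ext
  rw [val_mul, val_mul, v10, v10]
  show _ * !![a, b, 0; c, d, 0; 0, 0, 1] * _ =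
    !![a + t * b, b, 0; c + t * d - t * (a + t * b), d - t * b, 0; 0, 0, 1]
  simp only [Matrix.mul_fin_three]
  refine Matrix.ext fun i j => ?_
  fin_cases i <;> fin_cases j <;> simp <;> ring

theorem sym_eq (hH : Good m H) (a b c d : ℤ) (h : a * d - b * c = 1) (hc : (m : ℤ) ∣ c) :
    sym H m a b = cl H (b01 a b c d h) := by
  have hex : ∃ c d : ℤ, a * d - b * c = 1 ∧ (m : ℤ) ∣ c := ⟨c, d, h, hc⟩
  rw [sym, dif_pos hex]
  set c' := hex.choose
  set d' := hex.choose_spec.choose
  have h1 : a * d' - b * c' = 1 := hex.choose_spec.choose_spec.1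
  have h2 : (m : ℤ) ∣ c' := hex.choose_spec.choose_spec.2
  set t := d * c' - c * d' with ht
  have e1 : c' = c + t * a := by rw [ht]; linear_combination (-c') * h + c * h1
  have e2 : d' = d + t * b := by rw [ht]; linear_combination (-d') * h + d * h1
  have hm : (m : ℤ) ∣ t := by
    rw [ht]
    exact dvd_sub (dvd_mul_of_dvd_right h2 _) (dvd_mul_of_dvd_left hc _)
  have h3 : a * (d + t * b) - b * (c + t * a) = 1 := by rw [← e1, ← e2]; exact h1
  rw [b01_congr h1 h3 rfl rfl e1 e2, ← low_eq a b c d t h h3, map_mul, cl_el hH _ hm, one_mul]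

theorem dvd_d {a b c d : ℤ} (h : a * d - b * c = 1) (ha : (m : ℤ) ∣ a - 1)
    (hc : (m : ℤ) ∣ c) : (m : ℤ) ∣ d - 1 := by
  have : d - 1 = b * c - (a - 1) * d := by linear_combination h
  rw [this]
  exact dvd_sub (dvd_mul_of_dvd_right hc _) (dvd_mul_of_dvd_left ha _)

/-- a completion with `c` divisible by `m` -/
theorem exists_cd {a b : ℤ} (hab : IsCoprime a b) (ha : (m : ℤ) ∣ a - 1) :
    ∃ c d : ℤ, a * d - b * c = 1 ∧ (m : ℤ) ∣ c := by
  obtain ⟨u, v, huv⟩ := hab
  refine ⟨-v * (1 - a), u + v * b, by linear_combination huv, ?_⟩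
  rw [show 1 - a = -(a - 1) by ring]
  exact dvd_mul_of_dvd_right (dvd_neg.2 ha) _

theorem sym_add_b (hH : Good m H) {a b : ℤ} (hab : IsCoprime a b) (ha : (m : ℤ) ∣ a - 1)
    {t : ℤ} (ht : (m : ℤ) ∣ t) : sym H m a (b + t * a) = sym H m a b := by
  obtain ⟨c, d, h, hc⟩ := exists_cd hab ha
  have h' : a * (d + t * c) - (b + t * a) * c = 1 := by linear_combination h
  rw [sym_eq hH a (b + t * a) c (d + t * c) h' hc, sym_eq hH a b c d h hc,
    ← up_eq a b c d t h h', map_mul, cl_el hH _ ht, mul_one]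

theorem sym_add_a (hH : Good m H) {a b : ℤ} (hab : IsCoprime a b) (ha : (m : ℤ) ∣ a - 1)
    (hb : (m : ℤ) ∣ b) (t : ℤ) : sym H m (a + t * b) b = sym H m a b := by
  obtain ⟨c, d, h, hc⟩ := exists_cd hab ha
  have hd := dvd_d h ha hc
  have h' : (a + t * b) * (d - t * b) - b * (c + t * d - t * (a + t * b)) = 1 := by
    linear_combination h
  have hc' : (m : ℤ) ∣ c + t * d - t * (a + t * b) := by
    have : c + t * d - t * (a + t * b) = c + t * (d - 1) - t * (a - 1) - t * t * b := by ring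
    rw [this]
    exact dvd_sub (dvd_sub (dvd_add hc (dvd_mul_of_dvd_right hd _)) (dvd_mul_of_dvd_right ha _))
      (dvd_mul_of_dvd_right hb _)
  rw [sym_eq hH _ _ _ _ h' hc', sym_eq hH a b c d h hc, ← cj_eq a b c d t h h', map_mul, map_mul,
    central hH a b c d h ha hb hc hd, mul_assoc, ← map_mul, ← el_add, neg_add_cancel, el_zero,
    map_one, mul_one]

theorem sym_mul (hH : Good m H) {a b b' : ℤ} (hab : IsCoprime a b) (hab' : IsCoprime a b')
    (ha : (m : ℤ) ∣ a - 1) (hb : (m : ℤ) ∣ b) (hb' : (m : ℤ) ∣ b') :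
    sym H m a (b * b') = sym H m a b * sym H m a b' := by
  obtain ⟨c, d, h, hc⟩ := exists_cd hab ha
  obtain ⟨c', d', h', hc'⟩ := exists_cd hab' ha
  have hd := dvd_d h ha hc
  have hd' := dvd_d h' ha hc'
  have h'' : a * (d' - b' * c' * d) - (b * b') * (-(c * c')) = 1 := by
    linear_combination h' - b' * c' * h
  have hcc : (m : ℤ) ∣ -(c * c') := dvd_neg.2 (dvd_mul_of_dvd_left hc _)
  have e12 : cl H (b12 a b' c' d' h') = cl H (b01 a b' c' d' h') := by
    have := congrArg (cl H) (w3_eq a b' c' d' h')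
    rw [map_mul, map_mul, central hH a b' c' d' h' ha hb' hc' hd'] at this
    exact (mul_right_cancel this).symm
  have e02 : cl H (b02 a (b * b') (-(c * c')) (d' - b' * c' * d) h'') =
      cl H (b01 a (b * b') (-(c * c')) (d' - b' * c' * d) h'') := by
    have := congrArg (cl H) (w2_eq a (b * b') (-(c * c')) (d' - b' * c' * d) h'')
    rw [map_mul, map_mul, central hH a (b * b') (-(c * c')) (d' - b' * c' * d) h'' ha
      (dvd_mul_of_dvd_left hb _) hcc (dvd_d h'' ha hcc)] at this
    exact (mul_right_cancel this).symm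
  rw [sym_eq hH _ _ _ _ h'' hcc, sym_eq hH _ _ _ _ h hc, sym_eq hH _ _ _ _ h' hc', ← e02,
    ← key a b c d b' c' d' h h' h'', map_mul, map_mul, map_mul, map_mul, map_mul,
    cl_el hH _ (dvd_neg.2 hc'), cl_el hH _ (dvd_neg.2 hb), cl_el hH _ (dvd_neg.2 hc),
    cl_el hH _ (dvd_neg.2 (dvd_mul_of_dvd_right hb' d)), e12, one_mul, mul_one, mul_one, mul_one]

theorem sym_one (hH : Good m H) {b : ℤ} (hb : (m : ℤ) ∣ b) : sym H m 1 b = 1 := by
  have h : (1 : ℤ) * 1 - b * 0 = 1 := by ring
  have e : b01 1 b 0 1 h = el n01 b := by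
    apply Subtype.ext
    rw [v01]
    rfl
  rw [sym_eq hH 1 b 0 1 h (dvd_zero _), e, cl_el hH _ hb]

end three

end Pool.Agent.W5h84.MT
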